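import Pool.Agent.MP_1246c0_nt.H12.SpecR

/-! The probability of failure at one level. -/

namespace Pool.Agent.MP_1246c0_nt.H12

open Polynomial Finset Matrix Filter

namespace LV

theorem ind_nonneg (p : Prop) : 0 ≤ ind p := by unfold ind; split_ifs <;> norm_num

theorem ind_le_one (p : Prop) : ind p ≤ 1 := by unfold ind; split_ifs <;> norm_num

theorem ind_pos {p : Prop} (h : p) : ind p = 1 := if_pos h

theorem ind_or {p q r : Prop} (h : p → q ∨ r) : ind p ≤ ind q + ind r := by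
  by_cases hp : p
  · rcases h hp with a | a
    · rw [ind_pos a]; linarith [ind_le_one p, ind_nonneg r]
    · rw [ind_pos a]; linarith [ind_le_one p, ind_nonneg q]
  · rw [show ind p = 0 from if_neg hp]; exact add_nonneg (ind_nonneg _) (ind_nonneg _)

theorem tail {a : ℕ} (ha : 1 ≤ a) (n : ℕ) :
    ∑ d ∈ Icc (a + 1) n, 1 / (4 * ((2 : ℝ) ^ d - 1)) ≤ 1 / (4 * ((2 : ℝ) ^ a - 1)) := by
  have pos : ∀ d, 1 ≤ d → (0 : ℝ) < 2 ^ d - 1 := fun d hd =>
    sub_pos.2 (one_lt_pow₀ one_lt_two (by omega))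
  have k : ∀ n, a ≤ n → ∑ d ∈ Icc (a + 1) n, 1 / (4 * ((2 : ℝ) ^ d - 1)) +
      1 / (4 * ((2 : ℝ) ^ n - 1)) ≤ 1 / (4 * ((2 : ℝ) ^ a - 1)) := fun n hn => by
    induction n, hn using Nat.le_induction with
    | base => simp
    | succ n hn ih =>
      rw [sum_Icc_succ_top (by omega), add_assoc]
      refine le_trans (add_le_add le_rfl ?_) ih
      have := pos n (by omega)
      have := pos (n + 1) (by omega)
      rw [← add_div, div_le_div_iff₀ (by positivity) (by positivity), pow_succ]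
      linarith
  rcases le_total a n with h | h
  · have := pos n (by omega)
    exact le_trans (le_add_of_nonneg_right (by positivity)) (k n h)
  · have := pos a ha
    rw [Icc_eq_empty (by omega), sum_empty]
    positivity

theorem head {n : ℕ} (hn : 6 ≤ n) :
    ∑ d ∈ Icc 2 n, 1 / (4 * ((2 : ℝ) ^ d - 1)) ≤ 7586 / 50000 := by
  have e : Icc 2 n = Icc 2 6 ∪ Icc (6 + 1) n := by
    ext d
    simp only [mem_Icc, mem_union]
    omega
  rw [e, sum_union (by rw [disjoint_left]; intro d; simp only [mem_Icc]; omega)]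
  refine (add_le_add le_rfl (tail (by norm_num) n)).trans ?_
  rw [show Icc 2 6 = {2, 3, 4, 5, 6} from rfl]
  norm_num

theorem er_le {a γ x : ℕ} (h : 3 * (a + x + 5 * (γ + 1) * (γ + x + 2)) ≤ x ^ 5) :
    a * Er γ x (x ^ 5) ≤ 1 / 2 ^ x := by
  have h1 : a + x + 5 * (γ + 1) * (γ + x + 2) ≤ x ^ 5 / 3 :=
    (Nat.le_div_iff_mul_le (by norm_num)).2 (by omega)
  have h2 : (a : ℝ) ≤ 2 ^ a := by exact_mod_cast (Nat.lt_two_pow_self (n := a)).le
  rw [Er, ← mul_div_assoc, div_le_div_iff₀ (by positivity) (by positivity), one_mul]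
  refine le_trans ?_ (pow_le_pow_right₀ one_le_two h1)
  rw [pow_add, pow_add, mul_right_comm]
  gcongr

theorem big : ∃ x0 : ℕ, ∀ x, x0 ≤ x → 1000 * x ^ 2 ≤ x ^ 5 ∧ 13 ≤ x ∧
    ∀ c κ : ℕ, c ≤ x ^ 11 → κ ≤ x →
      ((c : ℝ) + 1) * 2 ^ (κ + 2 * x + 2) / 2 ^ (5 * x) ≤ 1 / 2 ^ x := by
  obtain ⟨x1, h⟩ := eventually_atTop.1 ((tendsto_pow_const_div_const_pow_of_one_lt 11
    (one_lt_two (α := ℝ))).eventually (gt_mem_nhds (by norm_num : (0 : ℝ) < 1 / 8)))
  refine ⟨max x1 13, fun x hx => ?_⟩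
  have h1 : 13 ≤ x := le_of_max_le_right hx
  refine ⟨?_, h1, fun c κ hc hκ => ?_⟩
  · rw [show x ^ 5 = x ^ 3 * x ^ 2 by ring]
    exact Nat.mul_le_mul_right _ (le_trans (by norm_num) (Nat.pow_le_pow_left h1 3))
  · have h2 := h x (le_of_max_le_left hx)
    rw [div_lt_iff₀ (by positivity)] at h2
    have h3 : (c : ℝ) ≤ x ^ 11 := by exact_mod_cast hc
    have h4 : (1 : ℝ) ≤ x ^ 11 := one_le_pow₀ (by exact_mod_cast (by omega : 1 ≤ x))
    have h5 : (2 : ℝ) ^ (κ + 2 * x + 2) ≤ 2 ^ (3 * x) * 4 := by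
      rw [show (4 : ℝ) = 2 ^ 2 by norm_num, ← pow_add]
      exact pow_le_pow_right₀ one_le_two (by omega)
    rw [div_le_div_iff₀ (by positivity) (by positivity), one_mul,
      show (2 : ℝ) ^ (5 * x) = 2 ^ x / 4 * (2 ^ (3 * x) * 4) * 2 ^ x by ring]
    gcongr
    linarith

theorem deg_one {p : F2[X]} (h : p.natDegree = 1) : p = X + C 0 ∨ p = X + C 1 := by
  obtain ⟨a, ha, b, rfl⟩ := natDegree_eq_one.1 h
  have k : ∀ a : F2, a = 0 ∨ a = 1 := by decide
  rw [(k a).resolve_left ha, C_1, one_mul, ← C_1]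
  rcases k b with rfl | rfl
  exacts [Or.inl rfl, Or.inr rfl]

variable {ι : Type} [Fintype ι] [DecidableEq ι] {S : Matrix ι ι F2} {e : ι → F2}
  {B P J : Finset ι} {m z : ℕ}

theorem ok_add (h : Ok i2 i2 S e B P J false m z) {H : Matrix ι ι F2} (hH : H ∈ Hs i2 B B) :
    Ok i2 i2 (S + H) e B P J false m z := by
  obtain ⟨h1, -, h3⟩ := hH
  refine ⟨fun l hl l' hl' => ?_, fun w w0 a b => h.row w w0 a fun l' c d => ?_,
    fun w a b => h.col w a fun l c d => ?_, h.sub, h.typ, h.cnt, h.pen, h.sml⟩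
  · rw [← h.sym l hl l' hl', Matrix.add_apply, Matrix.add_apply, h1 l l']
    simp only [RingHom.id_apply]
    linear_combination CharTwo.add_self_eq_zero (H l l')
  · rw [← b l' c d]
    congr 1
    refine sum_congr rfl fun l _ => ?_
    by_cases hl : l ∈ B
    · rw [a l hl, zero_mul, zero_mul]
    · rw [Matrix.add_apply, h3 l l' fun k => hl k.1, add_zero]
  · rw [← b l c d]
    refine sum_congr rfl fun l' _ => ?_
    by_cases hl : l' ∈ B
    · rw [a l' hl, mul_zero, mul_zero]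
    · rw [Matrix.add_apply, h3 l l' fun k => hl k.2.1, add_zero]

theorem fr_low (h : Kr S e P ≤ 1) : Fr i2 S e B (P ∩ B) P Pᶜ (P ∩ B) false := by
  refine ⟨Subset.rfl, Subset.rfl, inter_subset_right, fun a => absurd a (by decide),
    fun l hl => ?_, disjoint_compl_left, disjoint_compl_left.mono_right inter_subset_left,
    fun y a b c => ?_⟩
  · rw [Finset.mem_sdiff, Finset.mem_inter] at hl
    exact mem_compl.2 fun k => hl.2 ⟨k, hl.1⟩
  · have := Finite.card_le_one_iff_subsingleton.1 h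
    exact congrArg Subtype.val (this.elim
      ⟨y, fun l hl => a l (by simpa using hl), fun l hl => b l (mem_compl.2 hl), c⟩
      ⟨0, fun _ _ => rfl, fun l _ => by simp, by simp [dot]⟩)

theorem fr_high : Fr i2 S e B B P ∅ (P ∩ B) false :=
  ⟨inter_subset_right, inter_subset_right, Subset.rfl, fun _ => rfl, by simp,
    disjoint_empty_left _, disjoint_empty_left _, fun _ a _ _ => funext fun l => a l (by simp)⟩

omit [Fintype ι] in
theorem hs_le : Hs i2 B (P ∩ B) ≤ Hs i2 B B := fun _ h =>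
  ⟨h.1, h.2.1, fun l l' a => h.2.2 l l' fun b => a ⟨b.1, b.2.1, Or.inl b.1⟩⟩

theorem bad_split {o : F2} {f k : ℕ} (h : Bad1 S e P o f) :
    (∃ p : F2[X], Irreducible p ∧ f ≤ p.natDegree ∧ p.natDegree ≤ k + 1 ∧ Hit S e P o p) ∨
      Bad1 S e P o (k + 2) := by
  obtain ⟨p, a, b, c⟩ := h
  rcases le_or_gt p.natDegree (k + 1) with d | d
  exacts [Or.inl ⟨p, a, b, d, c⟩, Or.inr ⟨p, a, d, c⟩]

end LV

open LV in
theorem rowLV : OfLV := by
  intro hA hH hL
  obtain ⟨x0, hx0⟩ := big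
  refine ⟨⟨x0, fun ι _ _ S e B P o x hx hok ho hc hk => ?_⟩,
    ⟨x0, fun ι _ _ S e B P x f η hx hok hc f1 fx hη => ?_⟩⟩
  · obtain ⟨b1, b2, b3⟩ := hx0 x hx
    have e1 := er_le (a := 5 * x + 1) (γ := 5 * x + 1) (x := x) (by nlinarith)
    have e2 := er_le (a := 2) (γ := 3) (x := x) (by nlinarith)
    have e3 := b3 _ 0 hc (Nat.zero_le _)
    have e4 : (1 : ℝ) / 2 ^ x ≤ 1 / 2 ^ 13 :=
      one_div_le_one_div_of_le (by positivity) (pow_le_pow_right₀ one_le_two b2)
    have h0 := hL.one ι S e B _ P _ _ o _ _ (X + C 0) hok (fr_low hk) (natDegree_X_add_C _)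
    have h1 := hL.one ι S e B _ P _ _ o _ _ (X + C 1) hok (fr_low hk) (natDegree_X_add_C _)
    have h2 := hL.deg ι S e B _ P _ _ o _ _ 2 (5 * x + 1) hok (fr_low hk) le_rfl
    have h3 := hH ι S e B P o _ _ (5 * x) 0 hok ho (by nlinarith) hk
    have h4 := head (n := 5 * x + 1) (by omega)
    refine (hA.mono _ _ _ (fun H => (ind (Hit (S + H) e P o (X + C 0)) +
      ind (Hit (S + H) e P o (X + C 1))) + (ind (∃ p : F2[X], Irreducible p ∧ 2 ≤ p.natDegree ∧
        p.natDegree ≤ 5 * x + 1 ∧ Hit (S + H) e P o p) + ind (Bad1 (S + H) e P o (5 * x + 2))))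
      fun H _ => ?_).trans ?_
    · refine (ind_or (q := Hit (S + H) e P o (X + C 0) ∨ Hit (S + H) e P o (X + C 1))
        (r := Bad1 (S + H) e P o 2) ?_).trans (add_le_add (ind_or id) (ind_or bad_split))
      rintro ⟨p, a, b, c⟩
      rcases b.eq_or_lt with d | d
      · rcases deg_one d.symm with rfl | rfl
        exacts [Or.inl (Or.inl c), Or.inl (Or.inr c)]
      · exact Or.inr ⟨p, a, d, c⟩
    · rw [hA.add, hA.add, hA.add]
      norm_num at e2 e4 ⊢
      norm_num at e1 e3 h0 h1 h2 h3 h4 ⊢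
      linarith
  · obtain ⟨b1, b2, b3⟩ := hx0 x hx
    have e1 := er_le (a := 5 * x + 1) (γ := 5 * x + 1) (x := x) (by nlinarith)
    have e4 : (1 : ℝ) / 2 ^ x ≤ 1 / 2 ^ f :=
      one_div_le_one_div_of_le (by positivity) (pow_le_pow_right₀ one_le_two fx)
    have h2 := hL.deg ι S e B _ P _ _ 0 _ _ (f + 1) (5 * x + 1) hok fr_high (by omega)
    have h4 := tail f1 (5 * x + 1)
    have h5 : 1 / (4 * ((2 : ℝ) ^ f - 1)) ≤ 1 / 2 ^ f := by
      have : (2 : ℝ) ^ 1 ≤ 2 ^ f := pow_le_pow_right₀ one_le_two f1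
      exact one_div_le_one_div_of_le (by positivity) (by linarith)
    have h3 : Ex (Hs i2 B B) (fun H => ind (Bad1 (S + H) e P 0 (5 * x + 2))) ≤ η + 1 / 2 ^ x := by
      rw [hA.sub _ _ _ _ (hs_le (P := P))]
      refine (hA.mono _ _ _ (fun H => ind (2 ^ x < Kr (S + H) e P) + 1 / 2 ^ x)
        fun H hH' => ?_).trans (by rw [hA.add, hA.const]; linarith)
      rcases le_or_gt (Kr (S + H) e P) (2 ^ x) with k | k
      · simp only [← add_assoc]
        exact ((hH ι _ e B P 0 _ _ (5 * x) x (ok_add hok hH') (fun a => absurd a (by decide))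
          (by nlinarith) k).trans (b3 _ x hc le_rfl)).trans (le_add_of_nonneg_left (ind_nonneg _))
      · rw [ind_pos k]
        exact ((hA.mono _ _ _ _ fun _ _ => ind_le_one _).trans_eq (hA.const _ _ 1)).trans
          (le_add_of_nonneg_right (by positivity))
    refine (hA.mono _ _ _ _ fun H _ => ind_or (bad_split (k := 5 * x))).trans ?_
    rw [hA.add, show (3 : ℝ) / 2 ^ f = 3 * (1 / 2 ^ f) by ring]
    linarith

end Pool.Agent.MP_1246c0_nt.H12
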