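import Pool.Agent.MP_1246c0_nt.H12.SpecA
import Pool.Agent.MP_db5b97_nt.H21.NT2

/-! The class numbers of the layers of the cyclotomic tower over the rationals are odd. -/

namespace Pool.Agent.MP_1246c0_nt.H12

open NumberField IsDedekindDomain Polynomial Finset Pool.Agent.MP_db5b97_nt.H85

namespace ODD

variable {F : Type} [Field F] [NumberField F]

theorem mem_Eu {x : Un F} : x ∈ Eu F ↔ ∀ w : Sp F, ord w x = 0 := by
  simp [Eu, AddSubgroup.mem_iInf]

theorem ord_dv {x : Un F} {D : Dv F 2} (e : dv F 2 x = D) {v : Sp F}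
    (hv : ((2 : ℕ) : 𝓞 F) ∉ v.asIdeal) : ord v x = D ⟨v, hv⟩ := by
  rw [← e, dv_apply]

theorem ideal_ext {I J : Ideal (𝓞 F)} (hI : I ≠ ⊥) (hJ : J ≠ ⊥)
    (h : ∀ w : Sp F, multiplicity w.asIdeal I = multiplicity w.asIdeal J) : I = J := by
  have k : ∀ p : Ideal (𝓞 F), Prime p → emultiplicity p I = emultiplicity p J := fun p hp => by
    rw [(FiniteMultiplicity.of_prime_left hp hI).emultiplicity_eq_multiplicity,
      (FiniteMultiplicity.of_prime_left hp hJ).emultiplicity_eq_multiplicity,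
      h ⟨p, Ideal.isPrime_of_prime hp, hp.ne_zero⟩]
  exact dvd_antisymm
    ((UniqueFactorizationMonoid.dvd_iff_emultiplicity_le hI).2 fun p hp => (k p hp).le)
    ((UniqueFactorizationMonoid.dvd_iff_emultiplicity_le hJ).2 fun p hp => (k p hp).ge)

/-- The class number kills divisors. -/
theorem cls_mul (D : Dv F 2) : ∃ x, classNumber F • D = dv F 2 x := by
  have k : ∀ I : Ideal (𝓞 F), I ≠ ⊥ → ∃ x, classNumber F • dI 2 I = dv F 2 x := fun I hI => by
    have h : ClassGroup.mk0 ⟨I, mem_nonZeroDivisors_of_ne_zero hI⟩ ^ classNumber F = 1 :=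
      pow_card_eq_one
    rw [← map_pow] at h
    obtain ⟨a, ha⟩ := (ClassGroup.mk0_eq_one_iff
      (mem_nonZeroDivisors_of_ne_zero (pow_ne_zero (classNumber F) hI))).1 h
    have h0 : a ≠ 0 := fun e => pow_ne_zero (classNumber F) hI (by simpa [e] using ha)
    exact ⟨mkI a h0, by rw [dv_mkI, ← dI_pow hI, ha]⟩
  obtain ⟨I, J, hI, hJ, -, rfl⟩ := exists_dI D
  obtain ⟨x, hx⟩ := k I hI
  obtain ⟨y, hy⟩ := k J hJ
  exact ⟨x - y, by rw [smul_sub, hx, hy, map_sub]⟩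

theorem od_of_odd (h : Odd (classNumber F)) (D : Dv F 2) : D ∈ Od (L := F) ⊤ :=
  (cls_mul D).elim fun x hx => ⟨_, h, x, trivial, hx⟩

theorem od_of_two (h : ∀ D : Dv F 2, 2 • D ∈ Od (L := F) ⊤ → D ∈ Od (L := F) ⊤) (D : Dv F 2) :
    D ∈ Od (L := F) ⊤ := by
  obtain ⟨a, k, hk, e⟩ := Nat.exists_eq_two_pow_mul_odd (classNumber_ne_zero F)
  obtain ⟨x, hx⟩ := cls_mul D
  have h1 : 2 ^ a • D ∈ Od (L := F) ⊤ := ⟨k, hk, x, trivial, by rw [smul_smul, mul_comm, ← e, hx]⟩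
  clear e
  induction a with
  | zero => simpa using h1
  | succ a ih => exact ih (h _ (by rwa [smul_smul, ← pow_succ']))

theorem odd_of_od {w : Sp F} (hw : ∀ v : Sp F, ((2 : ℕ) : 𝓞 F) ∈ v.asIdeal ↔ v = w) {ϖ : Un F}
    (h1 : ord w ϖ = 1) (h2 : dv F 2 ϖ = 0) (h : ∀ D : Dv F 2, D ∈ Od (L := F) ⊤) :
    Odd (classNumber F) := by
  rw [← Nat.not_even_iff_odd, even_iff_two_dvd]
  intro h3
  obtain ⟨c, hc⟩ := exists_prime_orderOf_dvd_card (G := ClassGroup (𝓞 F)) 2 h3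
  obtain ⟨⟨I, hI⟩, rfl⟩ := ClassGroup.mk0_surjective c
  have hI0 : I ≠ ⊥ := nonZeroDivisors.ne_zero hI
  obtain ⟨k, hk, x, -, e⟩ := h (dI 2 I)
  have hk0 := pow_ne_zero k hI0
  obtain ⟨a, ha, b, hb, e'⟩ :=
    exists_mkI (x + ((multiplicity w.asIdeal (I ^ k) : ℤ) - ord w x) • ϖ)
  have e2 : ∀ v : Sp F, ord v (mkI a ha - mkI b hb) = multiplicity v.asIdeal (I ^ k) := fun v => by
    rw [← e']
    by_cases hv : v = w
    · rw [hv, map_add, map_zsmul, h1]; simp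
    · have hv' := mt (hw v).1 hv
      rw [← dI_pow hI0] at e
      rw [map_add, map_zsmul, ord_dv h2 hv', Finsupp.zero_apply, smul_zero, add_zero,
        ord_dv e.symm hv', dI_apply hk0]
  have e3 : Ideal.span {b} * I ^ k = Ideal.span {a} * ⊤ := by
    rw [Ideal.mul_top]
    refine ideal_ext (mul_ne_zero (by simpa using hb) hk0) (by simpa using ha) fun v => ?_
    have := e2 v
    rw [map_sub, ord_mkI, ord_mkI] at this
    rw [mult_mul _ (by simpa using hb) hk0]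
    omega
  have e4 : ClassGroup.mk0 (⟨I, hI⟩ ^ k) = ClassGroup.mk0 1 :=
    ClassGroup.mk0_eq_mk0_iff.2 ⟨b, a, hb, ha, by simpa using e3⟩
  rw [map_pow, map_one, ← orderOf_dvd_iff_pow_eq_one, hc] at e4
  exact Nat.not_even_iff_odd.2 hk (even_iff_two_dvd.2 e4)

theorem odd_zero (h : Module.finrank ℚ F = 1) : Odd (classNumber F) := by
  have e : ℚ ≃+* F := RingEquiv.ofBijective (algebraMap ℚ F)
    (Algebra.finrank_eq_one_iff_bijective_algebraMap.1 h)
  have e' : ℤ ≃+* 𝓞 F := Rat.ringOfIntegersEquiv.symm.trans (RingOfIntegers.mapRingEquiv e)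
  rw [classNumber_eq_one_iff.2 (IsPrincipalIdealRing.of_surjective e'.toRingHom e'.surjective)]
  exact odd_one

theorem dv_smul (g : F ≃ₐ[ℚ] F) (x : Un F) : dv F 2 (g • x) = g • dv F 2 x := by
  ext w
  have e : g • (g⁻¹ • w).1 = w.1 := smul_inv_smul g w.1
  rw [NT2.pm_apply, dv_apply, dv_apply, ← NT2.ord_smul F _ g (g⁻¹ • w).1 x, e]

theorem smul_Eu (g : F ≃ₐ[ℚ] F) {x : Un F} (h : x ∈ Eu F) : g • x ∈ Eu F :=
  mem_Eu.2 fun w => by rw [← smul_inv_smul g w, NT2.ord_smul, mem_Eu.1 h]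

theorem step (hC : SCY) (hU : SUN) {F' : Type} [Field F'] [NumberField F'] {n : ℕ} {θ : F}
    {γ : F ≃ₐ[ℚ] F} {θ' : F'} {γ' : F' ≃ₐ[ℚ] F'} (h : Cy F n θ γ) (h' : Cy F' (n + 1) θ' γ')
    (ih : ∀ D : Dv F 2, D ∈ Od (L := F) ⊤) (D : Dv F' 2) : D ∈ Od (L := F') ⊤ := by
  obtain ⟨j, j1, j2, j3⟩ := hC.emb F F' n (n + 1) θ γ θ' γ' h h' (Nat.le_succ n)
  obtain ⟨-, g1, g2, g3⟩ := hC.gal F' _ θ' γ' h'
  obtain ⟨t0, w, hw, t1, -⟩ := hC.two F' _ θ' γ' h'
  obtain ⟨t1, t2⟩ := t1 (Un.mk _ t0) rfl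
  generalize Un.mk _ t0 = ϖ at t1 t2
  rw [Nat.add_sub_cancel_left, Function.iterate_one, tw] at j1
  obtain ⟨g, hg⟩ : ∃ g, g = γ' ^ 2 ^ n := ⟨_, rfl⟩
  rw [← hg] at j3
  have gg : g ^ 2 = 1 := by rw [hg, ← pow_mul, ← pow_succ, ← g2, pow_orderOf_eq_one]
  have g0 : g ≠ 1 := hg ▸ pow_ne_one_of_lt_orderOf (by positivity)
    (g2 ▸ Nat.pow_lt_pow_right one_lt_two n.lt_succ_self)
  let := j.toAlgebra
  have hfix : ∀ s : Subgroup.zpowers g, ∀ x : F, s • j x = j x := fun s x =>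
    Subgroup.zpowers_le.2 (show g ∈ MulAction.stabilizer _ (j x) from (j3 _).1 ⟨x, rfl⟩) s.2
  have : IsGaloisGroup (Subgroup.zpowers g) F F' :=
    ⟨inferInstance, ⟨fun s a b => by
      rw [Algebra.smul_def, Algebra.smul_def, smul_mul']
      exact congrArg (· * _) (hfix s a)⟩,
      ⟨fun b hb => (j3 b).2 (hb ⟨g, Subgroup.mem_zpowers g⟩)⟩⟩
  have hun : Unr F F' 2 := NT2.unr F F' (Subgroup.zpowers g) 2 fun s hs v => by
    obtain ⟨k, hk⟩ := g1 s
    refine ⟨⟨θ', g3⟩, fun c => hs (Subtype.ext (hk.trans (hC.dist F' _ θ' γ' h' v k ?_)))⟩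
    rw [← hk]
    exact (val_lt_one_iff v.1 _).2 c
  have hinv : ∀ E : Dv F' 2, g • E = E → E ∈ Od (L := F') ⊤ := fun E hE => by
    obtain ⟨E0, rfl⟩ := (NT2.con_range F F' (Subgroup.zpowers g) 2 E).2 fun s =>
      Subgroup.zpowers_le.2 (show g ∈ MulAction.stabilizer _ E from hE) s.2
    obtain ⟨k, hk, x, -, e⟩ := ih E0
    have e' : k • con F F' 2 E0 = dv F' 2 (Un.inc F F' x) := by
      rw [← map_nsmul, e]
      ext v
      rw [con_apply, dv_apply, dv_apply, NT2.ord_inc, hun v, Nat.cast_one, one_mul]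
      rfl
    exact ⟨k, hk, _, trivial, e'⟩
  have g2A : ∀ x : Un F', g • g • x = x := fun x => by rw [smul_smul, ← sq, gg, one_smul]
  have g2D : ∀ x : Dv F' 2, g • g • x = x := fun x => by rw [smul_smul, ← sq, gg, one_smul]
  have gw : g • w = w := (hw _).1 (by rw [mem_smul_iff, smul_natCast]; exact (hw w).2 rfl)
  have gθ : g θ' = -θ' := by
    have e : g (θ' ^ 2 - 2) = θ' ^ 2 - 2 := j1 ▸ (j3 _).1 ⟨θ, rfl⟩
    rw [map_sub, map_pow, map_ofNat, sub_left_inj] at e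
    refine (sq_eq_sq_iff_eq_or_eq_neg.1 e).resolve_left fun e' => g0 (AlgEquiv.ext fun x => ?_)
    have hx : x ∈ IntermediateField.adjoin ℚ {θ'} := h'.gen ▸ IntermediateField.mem_top
    induction hx using IntermediateField.adjoin_induction with
    | mem x hx => rw [Set.mem_singleton_iff.1 hx]; exact e'
    | algebraMap x => exact g.commutes x
    | add x y _ _ a b => rw [map_add, map_add, a, b]
    | inv x _ a => rw [map_inv₀, map_inv₀, a]
    | mul x y _ _ a b => rw [map_mul, map_mul, a, b]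
  have hnm : ∀ u ∈ Eu F', g • u = u → ∃ ε ∈ Eu F', u = ε + g • ε := fun u hu hgu => by
    obtain ⟨x, hx⟩ := (j3 u.val).2 (congrArg Un.val hgu)
    obtain ⟨u0, rfl⟩ : ∃ u0, Un.inc F F' u0 = u :=
      ⟨Un.mk x fun e => u.val_ne (by rw [← hx, e, map_zero]), Un.ext hx⟩
    have hu0 : u0 ∈ Eu F := mem_Eu.2 fun v => by
      obtain ⟨v', rfl⟩ := NT2.und_surj F (F := F') v
      have := mem_Eu.1 hu v'
      rw [NT2.ord_inc] at this
      exact (mul_eq_zero.1 this).resolve_left (Nat.cast_ne_zero.2 (NT2.ram_ne F v'))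
    obtain ⟨η, -, η1, η2⟩ := hU.gen F n θ γ h
    obtain ⟨η', η0, η1', -⟩ := hU.gen F' _ θ' γ' h'
    obtain ⟨a, v, hv, rfl⟩ := η2 u0 hu0
    have e1 : Un.inc F F' η = η' + g • η' := Un.ext (by
      show j η.val = η'.val * g η'.val
      rw [η1, η1', map_neg, map_add, map_one, j1, map_neg, map_add, map_one, gθ]
      ring)
    have e2 : ∀ k : ℕ, ∀ x : Un F, Un.inc F F' (γ ^ k • x) = γ' ^ k • Un.inc F F' x := fun k x => by
      induction k with
      | zero => simp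
      | succ k ih => rw [pow_succ', pow_succ', mul_smul, mul_smul, ← ih]; exact Un.ext (j2 _)
    have e3 : ∀ k : ℕ, g • γ' ^ k • η' = γ' ^ k • g • η' := fun k => by
      rw [smul_smul, smul_smul, hg, pow_mul_comm]
    have e4 : g • Un.inc F F' v = Un.inc F F' v := Un.ext ((j3 _).1 ⟨v.val, rfl⟩)
    refine ⟨∑ k ∈ range (2 ^ n), a k • γ' ^ k • η' + Un.inc F F' v,
      add_mem (sum_mem fun k _ => nsmul_mem (smul_Eu _ η0) _) (mem_Eu.2 fun v' => by
        rw [NT2.ord_inc, mem_Eu.1 hv, mul_zero]), ?_⟩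
    simp only [map_add, map_sum, map_nsmul, e1, e2, e3, e4, smul_add, smul_sum, smul_comm g (a _),
      sum_add_distrib, two_nsmul]
    abel
  refine od_of_two (fun D ⟨k, hk, x, _, e⟩ => ?_) D
  obtain ⟨k', hk', x', -, e'⟩ := hinv (D + g • D) (by rw [smul_add, g2D, add_comm])
  obtain ⟨y, y0, y1⟩ : ∃ y : Un F', ord w y = 0 ∧
      dv F' 2 y = g • ((k * k') • D) - (k * k') • D := by
    refine ⟨k • x' - k' • x - ord w (k • x' - k' • x) • ϖ, by
      rw [map_sub, map_zsmul, t1]; simp, ?_⟩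
    rw [map_sub, map_zsmul, t2, smul_zero, sub_zero, map_sub, map_nsmul, map_nsmul, ← e, ← e',
      smul_comm g]
    generalize g • D = D'
    module
  obtain ⟨ε, hε, e1⟩ := hnm (y + g • y) (mem_Eu.2 fun v => by
    by_cases hv : v = w
    · rw [hv, map_add, y0, ← gw, NT2.ord_smul, y0, add_zero]
    · have : dv F' 2 (y + g • y) = 0 := by
        rw [map_add, dv_smul, y1, smul_sub, g2D, sub_add_sub_cancel, sub_self]
      rw [ord_dv this (mt (hw v).1 hv), Finsupp.zero_apply])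
    (by rw [smul_add, g2A, add_comm])
  obtain ⟨δ, -, e2⟩ := NT2.h1u F' (F' ≃ₐ[ℚ] F') 2 ⊥ g Nat.prime_two
    (Subgroup.normalizer_eq_top (⊥ : Subgroup (F' ≃ₐ[ℚ] F')) ▸ Subgroup.mem_top g) gg g0 (y - ε)
    (fun s hs => by rw [Subgroup.mem_bot.1 hs, one_smul]) (by
      rw [Nm_apply, sum_range_succ, sum_range_one, pow_zero, pow_one, one_smul, smul_sub,
        sub_add_sub_comm, e1, sub_self])
  have e3 := congrArg (dv F' 2) e2
  rw [map_sub, map_sub, dv_smul, y1,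
    show dv F' 2 ε = 0 from Finsupp.ext fun v => mem_Eu.1 hε v.1, sub_zero] at e3
  obtain ⟨k2, hk2, x2, -, e4⟩ := add_mem (hinv ((k * k') • D - dv F' 2 δ) (by
    rw [smul_sub, sub_eq_sub_iff_sub_eq_sub, e3]))
    (show dv F' 2 δ ∈ Od (L := F') ⊤ from ⟨1, odd_one, δ, trivial, one_smul _ _⟩)
  exact ⟨_, hk2.mul (hk.mul hk'), x2, trivial, by rw [← e4, sub_add_cancel, smul_smul]⟩

end ODD

open ODD in
theorem rowODD : OfODD := by
  intro hC hU F _ _ n θ γ h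
  induction n generalizing F with
  | zero => exact odd_zero (by simpa using h.rk)
  | succ n ih =>
    obtain ⟨F0, _, _, θ0, γ0, h0⟩ := hC.ex n
    obtain ⟨t0, w, hw, t1, -⟩ := hC.two F _ θ γ h
    obtain ⟨t1, t2⟩ := t1 (Un.mk _ t0) rfl
    exact odd_of_od hw t1 t2 (step hC hU h0 h (od_of_odd (ih F0 θ0 γ0 h0)))

end Pool.Agent.MP_1246c0_nt.H12
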