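import Pool.Agent.MP_1246c0_nt.H25.SpecG

/-! Labels for a chain of equivalence relations. -/

namespace Pool.Agent.MP_1246c0_nt.H25

open Finset

namespace LAB

theorem key {Z : Type} [Finite Z] (D E : Setoid Z) (Y : Set Z) {B : ℕ} (hB : 0 < B)
    (h : ∀ z' ∈ Y, ∀ A : Finset Z, (∀ z ∈ A, z ∈ Y ∧ D z z') →
      (∀ z ∈ A, ∀ y ∈ A, z ≠ y → ¬E z y) → A.card ≤ B) :
    ∃ lam : Z → Fin B, ∀ z ∈ Y, ∀ z' ∈ Y, D z z' → lam z = lam z' → E z z' := by
  classical
  have : Nonempty (Fin B) := ⟨⟨0, hB⟩⟩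
  have H : ∀ q : Quotient D, ∃ g : Quotient E → Fin B,
      Set.InjOn g {s | ∃ z ∈ Y, Quotient.mk D z = q ∧ Quotient.mk E z = s} := fun q => by
    rw [Set.exists_injOn_iff_injective]
    have := Fintype.ofFinite {s | ∃ z ∈ Y, Quotient.mk D z = q ∧ Quotient.mk E z = s}
    choose f h1 h2 h3 using
      fun s : {s | ∃ z ∈ Y, Quotient.mk D z = q ∧ Quotient.mk E z = s} => s.2
    have inj : f.Injective := fun s t e => Subtype.ext (by rw [← h3 s, ← h3 t, e])
    rcases isEmpty_or_nonempty {s | ∃ z ∈ Y, Quotient.mk D z = q ∧ Quotient.mk E z = s} with e | e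
    · exact ⟨fun s => e.elim s, fun s => e.elim s⟩
    obtain ⟨s0⟩ := e
    have := h (f s0) (h1 s0) (univ.image f) (fun z hz => ?_) fun z hz y hy hn e => hn ?_
    · rw [card_image_of_injective _ inj, card_univ] at this
      obtain ⟨g⟩ := Function.Embedding.nonempty_of_card_le (β := Fin B)
        (this.trans_eq (Fintype.card_fin B).symm)
      exact ⟨g, g.injective⟩
    · obtain ⟨s, -, rfl⟩ := mem_image.1 hz
      exact ⟨h1 s, Quotient.exact ((h2 s).trans (h2 s0).symm)⟩
    · obtain ⟨s, -, rfl⟩ := mem_image.1 hz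
      obtain ⟨t, -, rfl⟩ := mem_image.1 hy
      exact congrArg f (Subtype.ext (by rw [← h3 s, ← h3 t]; exact Quotient.sound e))
  choose g hg using H
  refine ⟨fun z => g (Quotient.mk D z) (Quotient.mk E z), fun z hz z' hz' d e => ?_⟩
  have d' : Quotient.mk D z = Quotient.mk D z' := Quotient.sound d
  refine Quotient.exact (hg (Quotient.mk D z') ⟨z, hz, d', rfl⟩ ⟨z', hz', rfl, rfl⟩ ?_)
  simpa only [d'] using e

end LAB

theorem rowLAB : SLAB := by
  intro Z κ _ _ r lt E Y B hB hE hr h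
  classical
  choose lam hl using fun c => LAB.key
    ⟨fun z z' => ∀ c', lt c' c → E c' z z', fun z c' _ => (hE c').refl z,
      fun a c' b => (hE c').symm (a c' b), fun a a' c' b => (hE c').trans (a c' b) (a' c' b)⟩
    ⟨E c, hE c⟩ Y hB (h c)
  let e : (κ → Fin B) ≃ Fin (B ^ Fintype.card κ) := Fintype.equivFinOfCardEq (by simp)
  refine ⟨fun z => e fun c => lam c z, fun z hz z' hz' q c => ?_⟩
  induction hn : r c using Nat.strong_induction_on generalizing c with
  | _ n ih =>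
    exact hl c z hz z' hz' (fun c' a => ih _ (hn ▸ hr c' c a) c' rfl) (congrFun (e.injective q) c)

end Pool.Agent.MP_1246c0_nt.H25
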