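import Pool.Agent.MP_1246c0_nt.H25.SpecC

/-! The matrices of symbols in mixed layers. -/

namespace Pool.Agent.MP_1246c0_nt.H25

open Finset Pool.Agent.MP_db5b97_nt.H85
open Pool.Agent.MP_1246c0_nt.H12

namespace SY2

theorem dbl (x : F2) : x + x = 0 := by revert x; decide

theorem sqr (x : F2) : x * x = x := by revert x; decide

section Ring

variable {R : Type} [CommRing R]

theorem pw (h2 : (2 : R) = 0) (g : R) (m : ℕ) : (g - 1) ^ 2 ^ m = g ^ 2 ^ m - 1 := by
  induction m with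
  | zero => simp
  | succ m ih =>
    rw [pow_succ, pow_mul, pow_mul, ih]
    linear_combination (1 - g ^ 2 ^ m) * h2

theorem ex_hom (h2 : (2 : R) = 0) : ∃ c : F2 →+* R, ∀ x, c x = (x.val : R) :=
  ⟨ZMod.castHom (ringChar.dvd (by exact_mod_cast h2)) R, fun x => by
    rw [ZMod.castHom_apply, ZMod.natCast_val]⟩

theorem sum_val (N : ℕ) [NeZero N] (F : ℕ → R) : ∑ k : ZMod N, F k.val = ∑ i ∈ range N, F i :=
  sum_nbij' (fun k => k.val) (fun i => (i : ZMod N)) (fun k _ => mem_range.2 k.val_lt)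
    (fun _ _ => mem_univ _) (fun k _ => ZMod.natCast_zmod_val k)
    (fun _ h => ZMod.val_cast_of_lt (mem_range.1 h)) fun _ _ => rfl

theorem cv_prj (h2 : (2 : R) = 0) {N N' : ℕ} [NeZero N] [NeZero N'] {u : R} (hu : u ^ N = 1)
    (f : ZMod N' → F2) :
    cv u (fun k : ZMod N => ∑ k' : ZMod N', if (k'.val : ZMod N) = k then f k' else 0) =
      cv u f := by
  obtain ⟨c, hc⟩ := ex_hom h2
  simp only [cv, ← hc, map_sum, sum_mul]
  rw [sum_comm]
  refine sum_congr rfl fun k' _ => ?_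
  simp only [apply_ite c, map_zero, ite_mul, zero_mul, sum_ite_eq, mem_univ, if_true]
  rw [ZMod.val_natCast, ← pow_eq_pow_mod _ hu]

theorem cv_fl (S : Sy) (n l : ℕ) (h : Ga) (u : R) :
    cv u (fl S n l h) = cv u (S.f (min (lev l) n) l h) := by
  have e1 := sum_val (2 ^ n) fun i => (((if i < 2 ^ min (lev l) n then
    S.f (min (lev l) n) l h i else 0).val : R)) * u ^ i
  have e2 := sum_val (2 ^ min (lev l) n) fun i => ((S.f (min (lev l) n) l h i).val : R) * u ^ i
  simp only [ZMod.natCast_zmod_val] at e2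
  refine e1.trans (Eq.trans ?_ e2.symm)
  rw [← sum_subset (range_subset_range.2 (Nat.pow_le_pow_right two_pos (min_le_right (lev l) n)))
    fun i _ hi => by rw [if_neg (by simpa using hi)]; simp]
  exact sum_congr rfl fun i hi => by rw [if_pos (mem_range.1 hi)]

theorem cv_one {N : ℕ} [NeZero N] (f : ZMod N → F2) : cv (1 : F2) f = ∑ k, f k := by
  simp [cv]

theorem cv_f (C : SDC1) {S : Sy} (A : Ax S) (h2 : (2 : R) = 0) {m m' l : ℕ} (hm : m ≤ m')
    (hl : Gd m' l) {u : R} (hu : u ^ 2 ^ m = 1) (h : Ga) :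
    cv u (S.f m' l h) = cv u (S.f m l h) := by
  rw [← cv_prj h2 hu (S.f m' l h)]
  congr 1
  funext k
  exact (C.prj S m m' l h k A hm hl).symm

/-- The quotient in which `g` has order dividing `2 ^ m`. -/
theorem quo (h2 : (2 : R) = 0) (g : R) (m : ℕ) : ∃ (Q : Type) (_ : CommRing Q) (q : R →+* Q),
    (2 : Q) = 0 ∧ q g ^ 2 ^ m = 1 ∧ ∀ x y, q x = q y → (g - 1) ^ 2 ^ m ∣ x - y := by
  refine ⟨R ⧸ Ideal.span {(g - 1) ^ 2 ^ m}, inferInstance, Ideal.Quotient.mk _, ?_, ?_,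
    fun x y h => Ideal.mem_span_singleton.1 (Ideal.Quotient.eq.1 h)⟩
  · rw [← map_ofNat (Ideal.Quotient.mk _) 2, h2, map_zero]
  · rw [← map_pow, ← map_one (Ideal.Quotient.mk _), Ideal.Quotient.eq, ← pw h2]
    exact Ideal.mem_span_singleton_self _

end Ring

theorem gd {m l : ℕ} (h : Gd 0 l) (hm : m ≤ lev l) : Gd m l := ⟨h.1, h.2.1, hm⟩

theorem sum_rc (T : SDAT) {n : ℕ} (D : Dat n) (S : Finset ℕ) {l l' : ℕ} (h : Gd n l)
    (h' : Gd n l') : ∑ k, D.Rc S l l' k = R0 S l l' := by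
  unfold Dat.Rc R0
  split_ifs with e
  · simp only [Pi.add_apply, sum_add_distrib, T.ao n D l, sum_pi_single', mem_univ, if_true]
  · exact T.ar n D l l' h h' e

theorem au_cv (L : SLAM) {Λ : Type} [CommRing Λ] {st : Λ →+* Λ} {au : Λ →+* F2} {g : Λ} {N : ℕ}
    [NeZero N] (G : LG st au g N) {N' : ℕ} [NeZero N'] (f : ZMod N' → F2) :
    au (cv g f) = ∑ k, f k := by
  have h := (G.lr.ker (g - 1)).2 dvd_rfl
  rw [map_sub, map_one, sub_eq_zero] at h
  rw [L.map, h, cv_one]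

variable {ι : Type} [Fintype ι] [DecidableEq ι] {pr : ι → ℕ} {P : ℕ} {i1 : ι}

theorem sum_SP (B : Lb pr P i1) (l : ι) (F : ℕ → F2) :
    ∑ c ∈ (SP pr P).erase (pr l), F c = F P + ∑ i ∈ univ.erase l, F (pr i) := by
  rw [SP, erase_insert_of_ne (B.ne l).symm, sum_insert (by simpa using fun _ i => B.ne i),
    ← image_erase B.inj, sum_image fun _ _ _ _ h => B.inj h]

/-- The diagonal. -/
theorem diag (CC : SCC) (C : SDC1) {S : Sy} (A : Ax S) (B : Lb pr P i1) (l : ι) {m : ℕ}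
    (hm : m ≤ lev (pr l)) : (S.D m).Rc (SP pr P) (pr l) (pr l) = S.f m (pr l) (S.Φ.fr (pr l)) +
      (Pi.single 0 (chi (dd pr P) (S.Φ.fr (pr l))) : Co m) := by
  have hl := gd (B.odd l) hm
  have hf : ∀ k, k ≠ 0 → S.f m (pr l) (S.Φ.fr (pr l)) k = (S.D m).rr (pr l) (pr l) k :=
    fun k hk => A.two.frq m _ _ k hl hl fun _ => hk
  funext k
  by_cases hk : k = 0
  swap
  · simp [Dat.Rc, Dat.ow, hk, hf k hk]
  subst hk
  have e1 := C.ch S (lev (pr l)) (pr l) (S.Φ.fr (pr l)) A (B.odd l)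
  rw [← cv_one, cv_fl, cv_f C A rfl (m := m) (by simpa using hm) (gd (B.odd l) (by simp))
    (one_pow _), cv_one, A.one.v.cm.2.2.2.2 _ (B.odd l), sqr, ← add_sum_erase _ _ (mem_univ 0),
    sum_congr rfl fun k hk => hf k (ne_of_mem_erase hk)] at e1
  have e2 := (CC.lab ι S.Φ pr P i1 A.one B).2.2.2.2.2.2.2.2.2.2.2.1 (S.Φ.fr (pr l))
  rw [← add_sum_erase _ _ (mem_univ l), A.one.v.cfr _ _ (B.odd l) fun h =>
    B.ne l ((Nat.prime_dvd_prime_iff_eq (B.odd l).1 B.prime).1 h),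
    sum_congr rfl fun i hi => A.one.v.cfr _ _ (B.odd l) fun h => ne_of_mem_erase hi
      (B.inj ((Nat.prime_dvd_prime_iff_eq (B.odd l).1 (B.odd i).1).1 h)).symm, e1] at e2
  simp only [Dat.Rc, Dat.ow, if_true, Pi.add_apply, Pi.single_eq_same, e2,
    sum_SP B l fun c => lg c (pr l)]
  linear_combination -dbl (S.f m (pr l) (S.Φ.fr (pr l)) 0)

end SY2

open SY2 in
theorem rowSY2 : OfSY2 := by
  intro _ Q L _ T Y CC C
  have aus : ∀ (ι Λ : Type) [Fintype ι] [DecidableEq ι] [CommRing Λ] (D : ∀ n, Dat n)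
      (st : Λ →+* Λ) (au : Λ →+* F2) (g : Λ) (n : ℕ) (pr : ι → ℕ) (P : ℕ), LG st au g (2 ^ n) →
      (∀ i, Gd 0 (pr i)) → (MX D n g pr P).map au = Sm0 pr P ∧
        ∀ i, au (cX D n g (pr i)) = eps (pr i) := by
    intro ι Λ _ _ _ D st au g n pr P G h
    refine ⟨?_, fun i => ?_⟩
    · ext i j
      rw [Matrix.map_apply, MX, au_cv L G]
      exact sum_rc T _ _ (gd (h i) (by omega)) (gd (h j) (by omega))
    · rw [cX, au_cv L G]
      exact T.ac _ _ _ (gd (h i) (by omega))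
  refine ⟨?_, aus, ?_, ?_⟩
  · intro ι Λ _ _ _ S st au g n pr P A G inj h l _ l' _
    obtain ⟨m, hm⟩ : ∃ m, m = min (min (lev (pr l)) (lev (pr l'))) n := ⟨_, rfl⟩
    have hm' : min (min (lev (pr l')) (lev (pr l))) n = m := by omega
    have hl : Gd m (pr l) := gd (h l) (by omega)
    have hl' : Gd m (pr l') := gd (h l') (by omega)
    obtain ⟨R, _, q, h2, hu, hq⟩ := quo G.lr.two g m
    obtain ⟨Λ0, _, _, st0, au0, g0, G0⟩ := L.ex m
    obtain ⟨φ, hφ⟩ := G0.lift R (q g) h2 hu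
    have a1 : q (st g) * q g = 1 := by rw [← map_mul, G.sg, map_one]
    have a2 : φ (st0 g0) = q (st g) := by
      have : φ (st0 g0) * q g = 1 := by rw [← hφ, ← map_mul, G0.sg, map_one]
      linear_combination q (st g) * this - φ (st0 g0) * a1
    have hu' : q (st g) ^ 2 ^ m = 1 := by
      have := congrArg (· ^ 2 ^ m) a1
      simpa only [mul_pow, hu, mul_one, one_pow] using this
    have e := congrArg φ (Y.sym m (S.D m) Λ0 ι st0 au0 g0 pr P {l, l'} G0 inj
      (by simp [hl, hl']) l (by simp) l' (by simp))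
    have cx : ∀ (u : R) i, u ^ 2 ^ m = 1 → m ≤ lev (pr i) →
        cv u ((S.D (min (lev (pr i)) n)).cc (pr i)) = cv u ((S.D m).cc (pr i)) :=
      fun u i hu hi => by
        rw [← A.two.cj _ _ (gd (h i) (min_le_left _ _)), ← A.two.cj _ _ (gd (h i) hi)]
        exact cv_f C A h2 (m := m) (by omega) (gd (h i) (min_le_left _ _)) hu _
    have tr : ∀ (u : R) a b k, k = m →
        cv u ((S.D k).Rc (SP pr P) a b) = cv u ((S.D m).Rc (SP pr P) a b) := by
      rintro u a b k rfl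
      rfl
    rw [au_cv L G0, T.ac _ _ _ hl] at e
    rw [← hm, (aus ι Λ S.D st au g n pr P G h).2 l]
    refine hq _ _ ?_
    simp only [MX, cX, SmN, map_add, map_mul, L.map, hφ, a2, apply_ite φ, apply_ite q,
      map_natCast, map_zero] at e ⊢
    rw [cx _ l hu' hl.2.2, cx _ l' hu hl'.2.2, ← e, tr _ _ _ _ hm.symm, tr _ _ _ _ hm']
  · intro ι _ _ pr P i1 l' B
    have hP : Gd 0 P := ⟨B.prime, fun h => by have := B.md; omega, Nat.zero_le _⟩
    have e0 : eps P = 0 := if_neg (by have := B.md; omega)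
    have e1 := Q.rcp P (pr l') hP (B.odd l') (B.ne l').symm
    rw [e0, zero_mul] at e1
    rw [← add_sum_erase _ _ (mem_univ l'), sum_congr rfl fun i hi =>
      show Sm0 pr P i l' = lg (pr i) (pr l') from if_neg (B.inj.ne (ne_of_mem_erase hi))]
    simp only [Sm0, R0, if_true, sum_SP B l' fun c => lg c (pr l')]
    linear_combination e1 + dbl (∑ i ∈ univ.erase l', lg (pr i) (pr l')) - dbl (lg (pr l') P)
  · intro ι Λ _ _ _ S st au g n0 n pr P i1 A G B hn
    refine ⟨fun l l' => ?_, fun l => ?_⟩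
    · obtain ⟨R, _, q, h2, hu, hq⟩ := quo G.lr.two g (min (min (lev (pr l)) (lev (pr l'))) n0)
      refine hq _ _ ?_
      rw [map_add, cv_fl, MX, L.map, L.map,
        cv_f C A h2 (by omega) (gd (B.odd l') (min_le_left _ _)) hu]
      split_ifs with e
      · subst e
        rw [diag CC C A B l (by omega), L.add _ _ _ _ _ h2, L.one, map_natCast]
      · rw [map_zero, add_zero, Dat.Rc, if_neg (B.inj.ne e)]
        congr 1
        funext k
        exact (A.two.frq _ _ _ k (gd (B.odd l') (by omega)) (gd (B.odd l) (by omega))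
          fun x => absurd (B.inj x) e).symm
    · obtain ⟨R, _, q, h2, hu, hq⟩ := quo G.lr.two g (min (lev (pr l)) n0)
      refine hq _ _ ?_
      rw [cv_fl, cX, L.map, L.map, cv_f C A h2 (by omega) (gd (B.odd l) (min_le_left _ _)) hu,
        A.two.cj _ _ (gd (B.odd l) (min_le_left _ _))]

end Pool.Agent.MP_1246c0_nt.H25
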